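import Pool.Agent.CPC.All2

/-!
# MP_f1f252_nt: almost no length is the length of a cycle of Collatz's original permutation
-/

set_option autoImplicit false

namespace Pool.Agent.Results.MP_f1f252_nt.CycleLengths

open Pool.Agent.CPC

/-- `f` is Collatz's original permutation, `IsCycle S`: the finite set `S` is a cycle of `f`, `Len K`: the
`k ≤ K` such that some cycle has exactly `k` elements -/
theorem result :
    (∃ C : ℝ, ∀ K : ℕ, 1 ≤ K → ((Len K).card : ℝ) ≤ C * (K : ℝ) ^ (0.92 : ℝ)) ∧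
    (∃ C : ℝ, ∀ N : ℕ, ∃ K : ℕ, N ≤ K ∧ ((Len K).card : ℝ) ≤ C * √(K * Real.log K)) :=
  ⟨all_LA2, all_LNB⟩

end Pool.Agent.Results.MP_f1f252_nt.CycleLengths
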