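import Pool.Agent.CPC.All2

/-!
# MP_f1f252_nt: runs of multiples of three in the cycles of Collatz's original permutation; the cycles with at most 14 runs
-/

set_option autoImplicit false

namespace Pool.Agent.Results.MP_f1f252_nt.CycleRuns

open Pool.Agent.CPC

/-- `f` is Collatz's original permutation, `IsCycle S`: the finite set `S` is a cycle of `f`, `runs S`: the number
of the maximal runs of multiples of `3` in the cycle -/
theorem result :
    (∀ S, IsCycle S ∧ runs S ≤ 14 ↔ S = {1} ∨ S = {2, 3} ∨ S = {4, 5, 6, 7, 9} ∨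
      S = {44, 59, 62, 66, 70, 74, 79, 83, 93, 99, 105, 111}) ∧
    (∃ C : ℝ, ∀ S, IsCycle S → 2 ≤ S.card →
      (S.card : ℝ) ≤ C * (Real.log 3 / Real.log 2) ^ (runs S) * Real.log S.card) ∧
    ∀ m : ℕ, {S | IsCycle S ∧ runs S ≤ m}.Finite := by
  refine ⟨fun S => ⟨fun h => all_FDD S h.1 h.2, ?_⟩, all_RU2⟩
  obtain ⟨⟨a1, a2⟩, ⟨b1, b2⟩, ⟨c1, c2⟩, ⟨d1, d2⟩⟩ := thm_FOU
  rintro (rfl | rfl | rfl | rfl)
  · exact ⟨a1, a2.le.trans (by norm_num)⟩
  · exact ⟨b1, b2.le.trans (by norm_num)⟩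
  · exact ⟨c1, c2.le.trans (by norm_num)⟩
  · exact ⟨d1, d2.le.trans (by norm_num)⟩

end Pool.Agent.Results.MP_f1f252_nt.CycleRuns
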