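import Pool.Agent.CPC.All2

/-!
# MP_f1f252_nt: few integers lie on short cycles of Collatz's original permutation
-/

set_option autoImplicit false

namespace Pool.Agent.Results.MP_f1f252_nt.ShortCycles

open Pool.Agent.CPC

/-- `f` is Collatz's original permutation, `Per K`: the positive integers `n` with `f^[j] n = n` for some
`1 ≤ j ≤ K` -/
theorem result : ∃ C : ℝ,
    (∀ K : ℕ, (Per K).Finite ∧ ((Per K).ncard : ℝ) ≤ C * (K : ℝ) ^ 12) ∧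
    ∀ x : ℕ, 1 ≤ x → ({n : ℕ | 0 < n ∧ n ≤ x ∧ ∃ i j : ℕ, i < j ∧ (j : ℝ) ≤ (x : ℝ) ^ (1 / 13 : ℝ) ∧
      f^[i] n = f^[j] n}.ncard : ℝ) ≤ C * (x : ℝ) ^ (12 / 13 : ℝ) := by
  obtain ⟨C, -, h⟩ := all_SH2
  exact ⟨C, h⟩

end Pool.Agent.Results.MP_f1f252_nt.ShortCycles
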