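import Mathlib

set_option autoImplicit false

namespace Pool.Agent.Results.MP_f1f252_nt.SparseOrbit

open Finset

/-- The original Collatz permutation. -/
def f (m : ℕ) : ℕ :=
  if m % 3 = 0 then 2 * m / 3
  else if m % 3 = 2 then (4 * m + 1) / 3
  else (4 * m - 1) / 3

theorem f_pos {m : ℕ} (h : 0 < m) : 0 < f m := by
  unfold f; split_ifs <;> omega

theorem f_inj {x y : ℕ} (hx : 0 < x) (hy : 0 < y) (h : f x = f y) : x = y := by
  unfold f at h
  split_ifs at h <;> omega

theorem iter_pos (j : ℕ) {m : ℕ} (h : 0 < m) : 0 < f^[j] m := by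
  induction j with
  | zero => exact h
  | succ j ih => rw [Function.iterate_succ_apply']; exact f_pos ih

theorem iter_inj (j : ℕ) {x y : ℕ} (hx : 0 < x) (hy : 0 < y) (h : f^[j] x = f^[j] y) : x = y := by
  induction j with
  | zero => exact h
  | succ j ih =>
    rw [Function.iterate_succ_apply', Function.iterate_succ_apply'] at h
    exact ih (f_inj (iter_pos j hx) (iter_pos j hy) h)

theorem word_cong : ∀ (t x y : ℕ), 0 < x → 0 < y → (∀ j < t, f^[j] x % 3 = f^[j] y % 3) →
    ((3 : ℤ) ^ t) ∣ (x : ℤ) - y := by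
  intro t
  induction t with
  | zero => intro x y _ _ _; simp
  | succ t ih =>
    intro x y hx hy h
    have h0 : x % 3 = y % 3 := by simpa using h 0 (by omega)
    have h1 : ((3 : ℤ) ^ t) ∣ (f x : ℤ) - f y := by
      refine ih (f x) (f y) (f_pos hx) (f_pos hy) ?_
      intro j hj
      have := h (j + 1) (by omega)
      rwa [Function.iterate_succ_apply, Function.iterate_succ_apply] at this
    have h2 : ((3 : ℤ) ^ (t + 1)) ∣ 3 * ((f x : ℤ) - f y) := by
      rw [pow_succ, mul_comm]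
      exact mul_dvd_mul_left 3 h1
    have h3 : ∃ c : ℤ, (c = 2 ∨ c = 4) ∧ 3 * ((f x : ℤ) - f y) = c * ((x : ℤ) - y) := by
      unfold f
      by_cases a : x % 3 = 0
      · refine ⟨2, Or.inl rfl, ?_⟩
        rw [if_pos a, if_pos (by omega : y % 3 = 0)]
        omega
      · by_cases b : x % 3 = 2
        · refine ⟨4, Or.inr rfl, ?_⟩
          rw [if_neg a, if_pos b, if_neg (by omega : ¬ y % 3 = 0), if_pos (by omega : y % 3 = 2)]
          omega
        · refine ⟨4, Or.inr rfl, ?_⟩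
          rw [if_neg a, if_neg b, if_neg (by omega : ¬ y % 3 = 0),
            if_neg (by omega : ¬ y % 3 = 2)]
          omega
    obtain ⟨c, hc, h4⟩ := h3
    rw [h4] at h2
    have hco : IsCoprime ((3 : ℤ) ^ (t + 1)) c := by
      apply IsCoprime.pow_left
      rcases hc with rfl | rfl
      · exact ⟨1, -1, by norm_num⟩
      · exact ⟨-1, 1, by norm_num⟩
    exact hco.dvd_of_dvd_mul_left h2

/-- Number of multiples of three among the first `t` iterates. -/
def z (t x : ℕ) : ℕ := ∑ j ∈ range t, if f^[j] x % 3 = 0 then 1 else 0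

theorem sum_words (A : Finset ℕ) (t : ℕ) (hA : ∀ x ∈ A, 0 < x ∧ x < 3 ^ t) :
    ∑ x ∈ A, (7 / 5 : ℝ) ^ (z t x) ≤ (17 / 5) ^ t := by
  classical
  let w : ℕ → (Fin t → Fin 3) := fun x j => ⟨f^[(j : ℕ)] x % 3, Nat.mod_lt _ (by norm_num)⟩
  let g : Fin 3 → ℝ := fun c => if c = 0 then 7 / 5 else 1
  have hw : Set.InjOn w A := by
    intro x hx y hy hxy
    obtain ⟨hx0, hx1⟩ := hA x hx
    obtain ⟨hy0, hy1⟩ := hA y hy
    have h1 : ((3 : ℤ) ^ t) ∣ (x : ℤ) - y := by
      refine word_cong t x y hx0 hy0 ?_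
      intro j hj
      have := congrFun hxy ⟨j, hj⟩
      simpa [w, Fin.ext_iff] using this
    have hx2 : (x : ℤ) < 3 ^ t := by exact_mod_cast hx1
    have hy2 : (y : ℤ) < 3 ^ t := by exact_mod_cast hy1
    have h2 : (x : ℤ) - y = 0 := by
      apply Int.eq_zero_of_abs_lt_dvd h1
      rw [abs_lt]
      constructor <;> omega
    omega
  have hg : ∀ c, 0 ≤ g c := by intro c; simp only [g]; split_ifs <;> norm_num
  have h1 : ∀ x, (7 / 5 : ℝ) ^ (z t x) = ∏ j, g (w x j) := by
    intro x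
    rw [z, ← Finset.prod_pow_eq_pow_sum, ← Fin.prod_univ_eq_prod_range
      (fun j => (7 / 5 : ℝ) ^ (if f^[j] x % 3 = 0 then 1 else 0)) t]
    refine Finset.prod_congr rfl fun j _ => ?_
    simp only [g, w, Fin.ext_iff, Fin.val_zero]
    split_ifs <;> simp
  have h2 : ∑ x ∈ A, (7 / 5 : ℝ) ^ (z t x) = ∑ v ∈ A.image w, ∏ j, g (v j) := by
    rw [Finset.sum_image hw]
    exact Finset.sum_congr rfl fun x _ => h1 x
  have h3 : ∑ v : Fin t → Fin 3, ∏ j, g (v j) = (17 / 5 : ℝ) ^ t := by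
    have := Finset.prod_univ_sum (fun _ : Fin t => (Finset.univ : Finset (Fin 3)))
      (fun _ c => g c)
    rw [Fintype.piFinset_univ] at this
    rw [← this]
    have h4 : ∑ c : Fin 3, g c = 17 / 5 := by
      have g0 : g 0 = 7 / 5 := if_pos rfl
      have g1 : g 1 = 1 := if_neg (by decide)
      have g2 : g 2 = 1 := if_neg (by decide)
      rw [Fin.sum_univ_three, g0, g1, g2]
      norm_num
    rw [Finset.prod_congr rfl (fun _ _ => h4), Finset.prod_const, Finset.card_univ,
      Fintype.card_fin]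
  rw [h2, ← h3]
  exact Finset.sum_le_univ_sum_of_nonneg fun v => Finset.prod_nonneg fun j _ => hg _

/-- Escaping elements after `j` steps. -/
theorem card_escape (A : Finset ℕ) (j : ℕ) :
    #(A.image f^[j] \ A) ≤ j * #(A.image f \ A) := by
  classical
  induction j with
  | zero => simp
  | succ j ih =>
    have hsub : A.image f^[j + 1] \ A ⊆ (A.image f^[j] \ A).image f ∪ (A.image f \ A) := by
      intro y hy
      rw [Finset.mem_sdiff, Finset.mem_image] at hy
      obtain ⟨⟨x, hx, rfl⟩, hy⟩ := hy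
      rw [Function.iterate_succ_apply'] at hy ⊢
      rw [Finset.mem_union]
      by_cases hb : f^[j] x ∈ A
      · right
        rw [Finset.mem_sdiff]
        exact ⟨Finset.mem_image_of_mem _ hb, hy⟩
      · left
        refine Finset.mem_image_of_mem _ ?_
        rw [Finset.mem_sdiff]
        exact ⟨Finset.mem_image_of_mem _ hx, hb⟩
    calc #(A.image f^[j + 1] \ A) ≤ #((A.image f^[j] \ A).image f ∪ (A.image f \ A)) :=
          Finset.card_le_card hsub
      _ ≤ #((A.image f^[j] \ A).image f) + #(A.image f \ A) := Finset.card_union_le _ _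
      _ ≤ #(A.image f^[j] \ A) + #(A.image f \ A) :=
          Nat.add_le_add_right Finset.card_image_le _
      _ ≤ j * #(A.image f \ A) + #(A.image f \ A) := by gcongr
      _ = (j + 1) * #(A.image f \ A) := by ring

theorem zeros_iter (A : Finset ℕ) (hA : ∀ x ∈ A, 0 < x) (j : ℕ) :
    #(A.filter (fun x => x % 3 = 0)) ≤
      (∑ x ∈ A, if f^[j] x % 3 = 0 then 1 else 0) + j * #(A.image f \ A) := by
  classical
  have hinj : Set.InjOn f^[j] A := fun x hx y hy h => iter_inj j (hA x hx) (hA y hy) h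
  have hcard : #(A.image f^[j]) = #A := Finset.card_image_of_injOn hinj
  have h1 : (∑ x ∈ A, if f^[j] x % 3 = 0 then 1 else 0) =
      #((A.image f^[j]).filter (fun y => y % 3 = 0)) := by
    rw [Finset.card_filter, Finset.sum_image hinj]
  have h2 : #(A \ A.image f^[j]) = #(A.image f^[j] \ A) := by
    have a1 := Finset.card_sdiff_add_card_inter A (A.image f^[j])
    have a2 := Finset.card_sdiff_add_card_inter (A.image f^[j]) A
    rw [Finset.inter_comm] at a2
    omega
  have h3 : A.filter (fun x => x % 3 = 0) ⊆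
      (A.image f^[j]).filter (fun y => y % 3 = 0) ∪ (A \ A.image f^[j]) := by
    intro x hx
    rw [Finset.mem_filter] at hx
    rw [Finset.mem_union]
    by_cases hb : x ∈ A.image f^[j]
    · left
      rw [Finset.mem_filter]
      exact ⟨hb, hx.2⟩
    · right
      rw [Finset.mem_sdiff]
      exact ⟨hx.1, hb⟩
  have h4 := (Finset.card_le_card h3).trans (Finset.card_union_le _ _)
  rw [h2] at h4
  rw [h1]
  have h5 := card_escape A j
  omega

theorem sum_z (A : Finset ℕ) (hA : ∀ x ∈ A, 0 < x) (t : ℕ) :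
    t * #(A.filter (fun x => x % 3 = 0)) ≤
      (∑ x ∈ A, z t x) + t * t * #(A.image f \ A) := by
  have h1 : ∑ x ∈ A, z t x = ∑ j ∈ range t, ∑ x ∈ A, if f^[j] x % 3 = 0 then 1 else 0 := by
    unfold z
    exact Finset.sum_comm
  have h2 : ∑ j ∈ range t, #(A.filter (fun x => x % 3 = 0)) ≤
      ∑ j ∈ range t, ((∑ x ∈ A, if f^[j] x % 3 = 0 then 1 else 0) + t * #(A.image f \ A)) := by
    refine Finset.sum_le_sum fun j hj => ?_
    refine (zeros_iter A hA j).trans ?_
    have : j ≤ t := (Finset.mem_range.1 hj).le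
    gcongr
  rw [Finset.sum_add_distrib, ← h1] at h2
  simp only [Finset.sum_const, Finset.card_range, smul_eq_mul] at h2
  rw [mul_assoc]
  exact h2

theorem f_le {m : ℕ} (h : 0 < m) : f m ≤ 2 * m := by
  unfold f; split_ifs <;> omega

theorem step_lower {m : ℕ} (h : 0 < m) :
    (m : ℝ) * ((4 / 3) * (if m % 3 = 0 then 1 / 2 else 1)) * ((m : ℝ) / (m + 1)) ≤ f m := by
  have hm : (1 : ℝ) ≤ m := by exact_mod_cast h
  have key : (m : ℝ) / (m + 1) ≤ 1 - 1 / (4 * m) := by
    rw [div_le_iff₀ (by positivity)]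
    have : (1 - 1 / (4 * (m : ℝ))) * (m + 1) = m + (3 * m - 1) / (4 * m) := by
      field_simp
      ring
    rw [this]
    have : 0 ≤ (3 * (m : ℝ) - 1) / (4 * m) := by
      apply div_nonneg <;> linarith
    linarith
  have hpos : (0 : ℝ) ≤ (m : ℝ) * ((4 / 3) * (if m % 3 = 0 then 1 / 2 else 1)) := by
    split_ifs <;> positivity
  refine (mul_le_mul_of_nonneg_left key hpos).trans ?_
  have e1 : (m : ℝ) * (1 - 1 / (4 * m)) = m - 1 / 4 := by
    field_simp
  split_ifs with h0
  · have h2 : 3 * f m = 2 * m := by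
      unfold f; rw [if_pos h0]; omega
    have h3 : 3 * (f m : ℝ) = 2 * m := by exact_mod_cast h2
    have e2 : (m : ℝ) * (4 / 3 * (1 / 2)) * (1 - 1 / (4 * m)) =
        (2 / 3) * (m * (1 - 1 / (4 * m))) := by ring
    rw [e2, e1]
    linarith
  · have h2 : 4 * m ≤ 3 * f m + 1 := by
      unfold f; rw [if_neg h0]; split_ifs <;> omega
    have h3 : 4 * (m : ℝ) ≤ 3 * f m + 1 := by exact_mod_cast h2
    have e2 : (m : ℝ) * (4 / 3 * 1) * (1 - 1 / (4 * m)) =
        (4 / 3) * (m * (1 - 1 / (4 * m))) := by ring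
    rw [e2, e1]
    linarith

theorem prod_frac (M : ℕ) : ∏ m ∈ Finset.Icc 1 M, ((m : ℝ) / (m + 1)) = 1 / (M + 1) := by
  induction M with
  | zero => simp
  | succ M ih =>
    rw [Finset.prod_Icc_succ_top (by omega), ih]
    push_cast
    field_simp

theorem balance (A : Finset ℕ) (M : ℕ) (hA : ∀ x ∈ A, 0 < x ∧ x ≤ M) :
    (4 / 3 : ℝ) ^ #A ≤ 2 ^ #(A.filter (fun x => x % 3 = 0)) * (M + 1) *
      (2 * M) ^ #(A.image f \ A) := by
  classical
  have hinj : Set.InjOn f A := fun x hx y hy h => f_inj (hA x hx).1 (hA y hy).1 h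
  have hpos : ∀ x ∈ A, (0 : ℝ) < x := fun x hx => by exact_mod_cast (hA x hx).1
  -- lower bound for the product of the images
  have h1 : ∏ x ∈ A, ((x : ℝ) * ((4 / 3) * (if x % 3 = 0 then 1 / 2 else 1)) *
      ((x : ℝ) / (x + 1))) ≤ ∏ x ∈ A, (f x : ℝ) := by
    refine Finset.prod_le_prod ?_ fun x hx => step_lower (hA x hx).1
    intro x hx
    have := hpos x hx
    split_ifs <;> positivity
  rw [Finset.prod_mul_distrib, Finset.prod_mul_distrib, Finset.prod_mul_distrib,
    Finset.prod_const] at h1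
  have h2 : ∏ x ∈ A, (if x % 3 = 0 then (1 / 2 : ℝ) else 1) =
      (1 / 2) ^ #(A.filter (fun x => x % 3 = 0)) := by
    rw [← Finset.prod_filter, Finset.prod_const]
  have h3 : (1 : ℝ) / (M + 1) ≤ ∏ x ∈ A, ((x : ℝ) / (x + 1)) := by
    rw [← prod_frac M]
    have hsub : A ⊆ Finset.Icc 1 M := by
      intro x hx
      rw [Finset.mem_Icc]
      exact ⟨(hA x hx).1, (hA x hx).2⟩
    rw [← Finset.prod_sdiff hsub]
    refine mul_le_of_le_one_left (Finset.prod_nonneg fun x _ => by positivity) ?_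
    refine Finset.prod_le_one (fun x _ => by positivity) fun x _ => ?_
    rw [div_le_one (by positivity)]
    linarith
  -- upper bound
  have h4 : ∏ x ∈ A, (f x : ℝ) = ∏ y ∈ A.image f, (y : ℝ) := (Finset.prod_image hinj).symm
  have h5 : ∏ y ∈ A.image f, (y : ℝ) ≤ (∏ x ∈ A, (x : ℝ)) * (2 * M) ^ #(A.image f \ A) := by
    rw [← Finset.prod_inter_mul_prod_sdiff (A.image f) A]
    refine mul_le_mul ?_ ?_ (Finset.prod_nonneg fun _ _ => by positivity)
      (Finset.prod_nonneg fun _ _ => by positivity)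
    · have hsub : A.image f ∩ A ⊆ A := Finset.inter_subset_right
      rw [← Finset.prod_sdiff hsub]
      refine le_mul_of_one_le_left (Finset.prod_nonneg fun _ _ => by positivity) ?_
      refine Finset.one_le_prod fun x hx => ?_
      have := (hA x (Finset.mem_sdiff.1 hx).1).1
      exact_mod_cast this
    · refine (Finset.prod_le_prod (fun _ _ => by positivity) fun y hy => ?_).trans_eq
        (Finset.prod_const (2 * (M : ℝ)))
      obtain ⟨x, hx, rfl⟩ := Finset.mem_image.1 (Finset.mem_sdiff.1 hy).1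
      have a := f_le (hA x hx).1
      have b := (hA x hx).2
      have : f x ≤ 2 * M := by omega
      exact_mod_cast this
  have hP : 0 < ∏ x ∈ A, (x : ℝ) := Finset.prod_pos hpos
  have hM : (0 : ℝ) < M + 1 := by positivity
  set P := ∏ x ∈ A, (x : ℝ) with hPdef
  set Z := #(A.filter (fun x => x % 3 = 0)) with hZ
  set r := #(A.image f \ A) with hr
  have h6 : P * ((4 / 3) ^ #A * (1 / 2) ^ Z) * (1 / (M + 1)) ≤ P * (2 * M) ^ r := by
    refine le_trans ?_ ((h1.trans_eq h4).trans h5)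
    rw [h2]
    exact mul_le_mul_of_nonneg_left h3 (by positivity)
  have h7 : (4 / 3 : ℝ) ^ #A * (1 / 2) ^ Z * (1 / (M + 1)) ≤ (2 * M) ^ r := by
    have : P * (((4 / 3 : ℝ) ^ #A * (1 / 2) ^ Z) * (1 / (M + 1))) ≤ P * (2 * M) ^ r := by
      rw [← mul_assoc]; exact h6
    exact le_of_mul_le_mul_left this hP
  have h8 : (4 / 3 : ℝ) ^ #A =
      ((4 / 3 : ℝ) ^ #A * (1 / 2) ^ Z * (1 / (M + 1))) * (2 ^ Z * (M + 1)) := by
    have : (1 / 2 : ℝ) ^ Z * 2 ^ Z = 1 := by
      rw [← mul_pow]; norm_num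
    have e : ((4 / 3 : ℝ) ^ #A * (1 / 2) ^ Z * (1 / (M + 1))) * (2 ^ Z * (M + 1)) =
        (4 / 3 : ℝ) ^ #A * ((1 / 2) ^ Z * 2 ^ Z) * ((1 / (M + 1)) * (M + 1)) := by ring
    rw [e, this, one_div_mul_cancel hM.ne', mul_one, mul_one]
  rw [h8]
  calc ((4 / 3 : ℝ) ^ #A * (1 / 2) ^ Z * (1 / (M + 1))) * (2 ^ Z * (M + 1))
      ≤ (2 * M) ^ r * (2 ^ Z * (M + 1)) := by gcongr
    _ = 2 ^ Z * (M + 1) * (2 * M) ^ r := by ring

set_option exponentiation.threshold 2000 in
theorem numeric : Real.log (17 / 5) ≤ 0.987 * Real.log 3 + 0.415 * Real.log (7 / 5) := by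
  have h1 : Real.log ((17 / 5 : ℝ) ^ 1000) ≤ Real.log ((3 : ℝ) ^ 987 * (7 / 5) ^ 415) := by
    apply Real.log_le_log (by positivity)
    norm_num
  rw [Real.log_mul (by positivity) (by positivity), Real.log_pow, Real.log_pow, Real.log_pow] at h1
  push_cast at h1
  linarith

theorem numeric2 : (0.415 : ℝ) * Real.log 2 ≤ Real.log (4 / 3) := by
  have h1 : Real.log ((2 : ℝ) ^ 83) ≤ Real.log ((4 / 3 : ℝ) ^ 200) := by
    apply Real.log_le_log (by positivity)
    norm_num
  rw [Real.log_pow, Real.log_pow] at h1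
  push_cast at h1
  linarith

/-- The isoperimetric inequality with a parameter `q`. -/
theorem iso_gen (A : Finset ℕ) (M : ℕ) (hA : ∀ x ∈ A, 0 < x ∧ x ≤ M) (q : ℝ) (hq : 0 < q)
    (hle : q * ((#(A.image f \ A) : ℝ) + 1) * (Nat.log 3 M + 1) < #A) :
    (#A : ℝ) ≤ Real.exp (4 * ((Nat.log 3 M : ℝ) + 1) / q * Real.log (7 / 5) +
      0.987 * (((Nat.log 3 M : ℝ) + 1) * Real.log 3)) := by
  have hpos : (0 : ℝ) < #A := lt_of_le_of_lt (by positivity) hle
  have hne : A.Nonempty := Finset.card_pos.1 (by exact_mod_cast hpos)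
  obtain ⟨x0, hx0⟩ := hne
  have hM1 : 1 ≤ M := by have := hA x0 hx0; omega
  have hb := balance A M hA
  have hs := sum_z A (fun x hx => (hA x hx).1) (Nat.log 3 M + 1)
  have hlt : M < 3 ^ (Nat.log 3 M + 1) := Nat.lt_pow_succ_log_self (by norm_num) M
  have hge : 3 ^ (Nat.log 3 M) ≤ M := Nat.pow_log_le_self 3 (by omega)
  have hw := sum_words A (Nat.log 3 M + 1) (fun x hx => ⟨(hA x hx).1, by
    have := (hA x hx).2; omega⟩)
  set t0 := Nat.log 3 M with ht0
  set t := t0 + 1 with ht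
  set Z := #(A.filter (fun x => x % 3 = 0)) with hZ
  set r := #(A.image f \ A) with hr
  set S := ∑ x ∈ A, z t x with hS
  have htR : ((t0 : ℝ) + 1) = (t : ℝ) := by rw [ht]; push_cast; rfl
  rw [htR] at hle ⊢
  have htpos : (1 : ℝ) ≤ t := by
    rw [← htR]
    have : (0 : ℝ) ≤ t0 := by positivity
    linarith
  have ht0' : (0 : ℝ) ≤ t := le_trans zero_le_one htpos
  -- lower bound for the number of zeros
  have hZ1 : 0.415 * (#A : ℝ) ≤ Z + 2 * t + 3 * t * r := by
    have hl2 : 0 < Real.log 2 := Real.log_pos (by norm_num)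
    have hM3 : ((M : ℝ) + 1) ≤ 2 ^ (2 * t) := by
      have h1 : (M : ℝ) + 1 ≤ 3 ^ t := by exact_mod_cast hlt
      have h2 : (3 : ℝ) ^ t ≤ 4 ^ t := by gcongr; norm_num
      rw [pow_mul]
      norm_num at h2 ⊢
      linarith
    have h2M : (2 * (M : ℝ)) ≤ 2 ^ (3 * t) := by
      have h1 : 2 * (M : ℝ) ≤ 2 * 2 ^ (2 * t) := by linarith
      have h2 : (2 : ℝ) * 2 ^ (2 * t) = 2 ^ (2 * t + 1) := by rw [pow_succ]; ring
      have h3 : (2 : ℝ) ^ (2 * t + 1) ≤ 2 ^ (3 * t) := by
        apply pow_le_pow_right₀ (by norm_num)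
        omega
      linarith
    have h3 : (4 / 3 : ℝ) ^ #A ≤ 2 ^ (Z + 2 * t + 3 * t * r) := by
      calc (4 / 3 : ℝ) ^ #A ≤ 2 ^ Z * (M + 1) * (2 * M) ^ r := hb
        _ ≤ 2 ^ Z * 2 ^ (2 * t) * (2 ^ (3 * t)) ^ r := by gcongr
        _ = 2 ^ (Z + 2 * t + 3 * t * r) := by rw [← pow_mul, ← pow_add, ← pow_add]
    have h4 := Real.log_le_log (by positivity) h3
    rw [Real.log_pow, Real.log_pow] at h4
    have h5 : (0.415 * (#A : ℝ)) * Real.log 2 ≤ (Z + 2 * t + 3 * t * r) * Real.log 2 := by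
      have h6 := mul_le_mul_of_nonneg_left numeric2 hpos.le
      push_cast at h4
      linarith
    exact le_of_mul_le_mul_right h5 hl2
  -- average of z
  have hSR : (t : ℝ) * Z ≤ S + t * t * r := by exact_mod_cast hs
  have hSlow : #A * (0.415 * (t : ℝ) - 4 * t / q) ≤ S := by
    have h1 := mul_le_mul_of_nonneg_left hZ1 ht0'
    have h2 : (r + 1 : ℝ) * t ≤ #A / q := by
      rw [le_div_iff₀ hq]
      have e : (r + 1 : ℝ) * t * q = q * (r + 1) * t := by ring
      rw [e]
      exact hle.le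
    have h3 := mul_le_mul_of_nonneg_left h2 ht0'
    have h4 : (#A : ℝ) * (0.415 * (t : ℝ) - 4 * t / q) =
        t * (0.415 * #A) - 4 * (t * (#A / q)) := by
      field_simp
    rw [h4]
    have h5 : (0 : ℝ) ≤ t * t := by positivity
    nlinarith
  -- convexity
  set L := Real.log (7 / 5) with hL
  have hLpos : 0 < L := Real.log_pos (by norm_num)
  set a : ℝ := 0.415 * t - 4 * t / q with ha
  have hterm : ∀ x ∈ A, Real.exp (a * L) * (1 + ((z t x : ℝ) - a) * L) ≤
      (7 / 5 : ℝ) ^ (z t x) := by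
    intro x _
    have h1 : (7 / 5 : ℝ) ^ (z t x) = Real.exp (a * L) * Real.exp (((z t x : ℝ) - a) * L) := by
      rw [← Real.exp_add, ← Real.rpow_natCast, Real.rpow_def_of_pos (by norm_num)]
      congr 1
      ring
    rw [h1]
    apply mul_le_mul_of_nonneg_left _ (Real.exp_pos _).le
    have := Real.add_one_le_exp (((z t x : ℝ) - a) * L)
    linarith
  have hsum : Real.exp (a * L) * (#A : ℝ) ≤ (17 / 5) ^ t := by
    refine le_trans ?_ ((Finset.sum_le_sum hterm).trans hw)
    rw [← Finset.mul_sum]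
    apply mul_le_mul_of_nonneg_left _ (Real.exp_pos _).le
    rw [Finset.sum_add_distrib, ← Finset.sum_mul, Finset.sum_sub_distrib, Finset.sum_const,
      Finset.sum_const, nsmul_eq_mul, nsmul_eq_mul, mul_one]
    have h1 : (∑ x ∈ A, (z t x : ℝ)) = S := by rw [hS]; push_cast; rfl
    rw [h1]
    have h2 : 0 ≤ (S : ℝ) - #A * a := by linarith
    have := mul_nonneg h2 hLpos.le
    linarith
  have h17 : (17 / 5 : ℝ) ^ t = Real.exp (t * Real.log (17 / 5)) := by
    rw [← Real.rpow_natCast, Real.rpow_def_of_pos (by norm_num), mul_comm]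
  have h1 : (#A : ℝ) = Real.exp (-(a * L)) * (Real.exp (a * L) * #A) := by
    rw [← mul_assoc, ← Real.exp_add]
    simp
  rw [h1]
  refine (mul_le_mul_of_nonneg_left hsum (Real.exp_pos _).le).trans ?_
  rw [h17, ← Real.exp_add]
  apply Real.exp_le_exp.2
  have := mul_le_mul_of_nonneg_left numeric ht0'
  rw [ha]
  linarith

theorem log_bound (M : ℕ) (hM : 1 ≤ M) :
    ((Nat.log 3 M : ℝ) + 1) * Real.log 3 ≤ Real.log 3 + Real.log M := by
  have hge : 3 ^ (Nat.log 3 M) ≤ M := Nat.pow_log_le_self 3 (by omega)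
  have h1 : Real.log ((3 : ℝ) ^ (Nat.log 3 M)) ≤ Real.log M := by
    apply Real.log_le_log (by positivity)
    exact_mod_cast hge
  rw [Real.log_pow] at h1
  linarith

/-- The isoperimetric inequality, exponent `0.987`. -/
theorem iso (A : Finset ℕ) (M : ℕ) (hA : ∀ x ∈ A, 0 < x ∧ x ≤ M) :
    (#A : ℝ) ≤ max (((#(A.image f \ A) : ℝ) + 1) * (Nat.log 3 M + 1) ^ 2)
      (12 * (M : ℝ) ^ (0.987 : ℝ)) := by
  have ht : (0 : ℝ) < (Nat.log 3 M : ℝ) + 1 := by positivity
  by_cases hle : (#A : ℝ) ≤ ((#(A.image f \ A) : ℝ) + 1) * (Nat.log 3 M + 1) ^ 2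
  · exact hle.trans (le_max_left _ _)
  refine le_trans ?_ (le_max_right _ _)
  push Not at hle
  have hpos : (0 : ℝ) < #A := lt_of_le_of_lt (by positivity) hle
  obtain ⟨x0, hx0⟩ : A.Nonempty := Finset.card_pos.1 (by exact_mod_cast hpos)
  have hM1 : 1 ≤ M := by have := hA x0 hx0; omega
  have hM0 : (0 : ℝ) < M := by exact_mod_cast hM1
  have hl3 : 0 < Real.log 3 := Real.log_pos (by norm_num)
  have h0 := iso_gen A M hA ((Nat.log 3 M : ℝ) + 1) ht (by
    refine lt_of_eq_of_lt ?_ hle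
    ring)
  rw [mul_div_assoc, div_self ht.ne', mul_one] at h0
  have hlog3 := log_bound M hM1
  have h1 : Real.exp (4 * Real.log (7 / 5) + 0.987 * (((Nat.log 3 M : ℝ) + 1) * Real.log 3)) ≤
      Real.exp (4 * Real.log (7 / 5) + Real.log 3 + 0.987 * Real.log M) := by
    apply Real.exp_le_exp.2
    linarith
  refine (h0.trans h1).trans ?_
  rw [Real.exp_add, Real.exp_add, Real.exp_log (by norm_num), mul_comm (0.987 : ℝ),
    ← Real.rpow_def_of_pos hM0]
  have h2 : Real.exp (4 * Real.log (7 / 5)) = (7 / 5) ^ 4 := by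
    rw [show 4 * Real.log (7 / 5) = Real.log ((7 / 5 : ℝ) ^ 4) by rw [Real.log_pow]; push_cast; rfl,
      Real.exp_log (by norm_num)]
  rw [h2]
  have h3 : 0 ≤ (M : ℝ) ^ (0.987 : ℝ) := by positivity
  nlinarith

theorem numeric3 : (4 / 450 : ℝ) * Real.log (7 / 5) ≤ 0.003 * Real.log 3 := by
  have h1 : Real.log ((7 / 5 : ℝ) ^ 80) ≤ Real.log ((3 : ℝ) ^ 27) := by
    apply Real.log_le_log (by positivity)
    norm_num
  rw [Real.log_pow, Real.log_pow] at h1
  push_cast at h1
  linarith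

/-- The isoperimetric inequality with the sharp order of the boundary, exponent `0.99`. -/
theorem iso' (A : Finset ℕ) (M : ℕ) (hA : ∀ x ∈ A, 0 < x ∧ x ≤ M) :
    (#A : ℝ) ≤ max (450 * ((#(A.image f \ A) : ℝ) + 1) * (Nat.log 3 M + 1))
      (3 * (M : ℝ) ^ (0.99 : ℝ)) := by
  have ht : (0 : ℝ) < (Nat.log 3 M : ℝ) + 1 := by positivity
  by_cases hle : (#A : ℝ) ≤ 450 * ((#(A.image f \ A) : ℝ) + 1) * (Nat.log 3 M + 1)
  · exact hle.trans (le_max_left _ _)
  refine le_trans ?_ (le_max_right _ _)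
  push Not at hle
  have hpos : (0 : ℝ) < #A := lt_of_le_of_lt (by positivity) hle
  obtain ⟨x0, hx0⟩ : A.Nonempty := Finset.card_pos.1 (by exact_mod_cast hpos)
  have hM1 : 1 ≤ M := by have := hA x0 hx0; omega
  have hM0 : (0 : ℝ) < M := by exact_mod_cast hM1
  have hl3 : 0 < Real.log 3 := Real.log_pos (by norm_num)
  have h0 := iso_gen A M hA 450 (by norm_num) hle
  have hlog3 := log_bound M hM1
  have h1 : Real.exp (4 * ((Nat.log 3 M : ℝ) + 1) / 450 * Real.log (7 / 5) +
      0.987 * (((Nat.log 3 M : ℝ) + 1) * Real.log 3)) ≤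
      Real.exp (Real.log 3 + 0.99 * Real.log M) := by
    apply Real.exp_le_exp.2
    have h5 := mul_le_mul_of_nonneg_left numeric3 ht.le
    have e : 4 * ((Nat.log 3 M : ℝ) + 1) / 450 * Real.log (7 / 5) =
        ((Nat.log 3 M : ℝ) + 1) * (4 / 450 * Real.log (7 / 5)) := by ring
    rw [e]
    linarith
  refine (h0.trans h1).trans ?_
  rw [Real.exp_add, Real.exp_log (by norm_num), mul_comm (0.99 : ℝ),
    ← Real.rpow_def_of_pos hM0]

theorem sq_le (t : ℕ) : t ^ 2 ≤ 2 * 2 ^ t := by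
  rcases Nat.lt_or_ge t 3 with h | h
  · interval_cases t <;> norm_num
  · induction t, h using Nat.le_induction with
    | base => norm_num
    | succ t ht ih =>
      rw [pow_succ 2 t]
      nlinarith

theorem sq_log_le (M : ℕ) (hM : 1 ≤ M) :
    2 * ((Nat.log 3 M : ℝ) + 1) ^ 2 ≤ 12 * (M : ℝ) ^ (0.987 : ℝ) := by
  have hge : 3 ^ (Nat.log 3 M) ≤ M := Nat.pow_log_le_self 3 (by omega)
  set t0 := Nat.log 3 M with ht0
  have h1 : ((t0 : ℝ) + 1) ^ 2 ≤ 4 * 2 ^ t0 := by
    have := sq_le (t0 + 1)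
    rw [pow_succ 2 t0] at this
    have h2 : (((t0 + 1 : ℕ) : ℝ)) ^ 2 ≤ 2 * (2 ^ t0 * 2) := by exact_mod_cast this
    push_cast at h2
    linarith
  have hM0 : (0 : ℝ) < M := by exact_mod_cast hM
  have h2 : (2 : ℝ) ^ t0 ≤ (M : ℝ) ^ (0.987 : ℝ) := by
    have h3 : (t0 : ℝ) * Real.log 3 ≤ Real.log M := by
      rw [← Real.log_pow]
      apply Real.log_le_log (by positivity)
      exact_mod_cast hge
    have h4 : Real.log 2 ≤ 0.987 * Real.log 3 := by
      have h5 : Real.log ((2 : ℝ) ^ 3) ≤ Real.log ((3 : ℝ) ^ 2) := by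
        apply Real.log_le_log (by positivity)
        norm_num
      rw [Real.log_pow, Real.log_pow] at h5
      have h6 : 0 < Real.log 3 := Real.log_pos (by norm_num)
      push_cast at h5
      linarith
    rw [Real.rpow_def_of_pos hM0, ← Real.rpow_natCast, Real.rpow_def_of_pos (by norm_num)]
    apply Real.exp_le_exp.2
    have h7 : (0 : ℝ) ≤ t0 := by positivity
    have := mul_le_mul_of_nonneg_left h4 h7
    linarith
  have h3 : 0 ≤ (M : ℝ) ^ (0.987 : ℝ) := by positivity
  linarith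

/-- Growth of orbits. -/
theorem orbit_bound (m n M : ℕ) (hm : 0 < m) (h1 : ∀ k, 0 < k → k ≤ n → f^[k] m ≠ m)
    (h2 : ∀ i ≤ n, f^[i] m ≤ M) : (n : ℝ) + 1 ≤ 12 * (M : ℝ) ^ (0.987 : ℝ) := by
  classical
  have hinj : Set.InjOn (fun i => f^[i] m) (range (n + 1) : Finset ℕ) := by
    have key : ∀ i j, i < j → j ≤ n → f^[i] m ≠ f^[j] m := by
      intro i j hij hj h
      have h3 : f^[i] m = f^[i] (f^[j - i] m) := by
        rw [← Function.iterate_add_apply, Nat.add_sub_cancel' hij.le]; exact h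
      have h4 := iter_inj i hm (iter_pos _ hm) h3
      exact h1 (j - i) (by omega) (by omega) h4.symm
    intro i hi j hj h
    have hi' : i < n + 1 := by simpa using hi
    have hj' : j < n + 1 := by simpa using hj
    rcases lt_trichotomy i j with h3 | h3 | h3
    · exact absurd h (key i j h3 (by omega))
    · exact h3
    · exact absurd h.symm (key j i h3 (by omega))
  set A : Finset ℕ := (range (n + 1)).image (fun i => f^[i] m) with hA
  have hcard : #A = n + 1 := by
    rw [hA, Finset.card_image_of_injOn hinj, Finset.card_range]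
  have hAM : ∀ x ∈ A, 0 < x ∧ x ≤ M := by
    intro x hx
    obtain ⟨i, hi, rfl⟩ := Finset.mem_image.1 hx
    exact ⟨iter_pos i hm, h2 i (by have := Finset.mem_range.1 hi; omega)⟩
  have hr : #(A.image f \ A) ≤ 1 := by
    have hsub : A.image f \ A ⊆ {f^[n + 1] m} := by
      intro y hy
      rw [Finset.mem_sdiff] at hy
      obtain ⟨hy1, hy2⟩ := hy
      obtain ⟨x, hx, rfl⟩ := Finset.mem_image.1 hy1
      obtain ⟨i, hi, rfl⟩ := Finset.mem_image.1 hx
      rw [Finset.mem_singleton]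
      by_contra hne
      apply hy2
      rw [← Function.iterate_succ_apply' f i m]
      refine Finset.mem_image.2 ⟨i + 1, ?_, rfl⟩
      rw [Finset.mem_range] at hi ⊢
      by_contra hlt
      apply hne
      have : i = n := by omega
      rw [this, Function.iterate_succ_apply']
    simpa using Finset.card_le_card hsub
  have hM : 1 ≤ M := by
    have := h2 0 (by omega)
    simp only [Function.iterate_zero, id] at this
    omega
  have h3 := iso A M hAM
  rw [hcard] at h3
  push_cast at h3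
  refine h3.trans (max_le ?_ le_rfl)
  refine le_trans ?_ (sq_log_le M hM)
  have : (#(A.image f \ A) : ℝ) ≤ 1 := by exact_mod_cast hr
  have h4 : (0 : ℝ) ≤ ((Nat.log 3 M : ℝ) + 1) ^ 2 := by positivity
  nlinarith

/-- Few integers up to `N` lie in cycles contained in `[1, N]`. -/
theorem cycles_bound (N : ℕ) :
    (({x : ℕ | 0 < x ∧ ∀ k, f^[k] x ≤ N}.ncard : ℕ) : ℝ) ≤ 12 * (N : ℝ) ^ (0.987 : ℝ) := by
  classical
  set T : Set ℕ := {x : ℕ | 0 < x ∧ ∀ k, f^[k] x ≤ N} with hT
  have hfin : T.Finite := (Set.finite_Iic N).subset fun x hx => by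
    have := hx.2 0
    simpa using this
  set A := hfin.toFinset with hA
  have hmem : ∀ x, x ∈ A ↔ 0 < x ∧ ∀ k, f^[k] x ≤ N := by
    intro x
    rw [hA, Set.Finite.mem_toFinset, hT, Set.mem_ofPred_eq]
  rw [Set.ncard_eq_toFinset_card T hfin]
  have hr : A.image f \ A = ∅ := by
    rw [Finset.sdiff_eq_empty_iff_subset]
    intro y hy
    obtain ⟨x, hx, rfl⟩ := Finset.mem_image.1 hy
    rw [hmem] at hx ⊢
    refine ⟨f_pos hx.1, fun k => ?_⟩
    have := hx.2 (k + 1)
    rwa [Function.iterate_succ_apply] at this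
  have h3 := iso A N (fun x hx => by
    have := (hmem x).1 hx
    exact ⟨this.1, by simpa using this.2 0⟩)
  rw [hr] at h3
  rcases Nat.eq_zero_or_pos N with rfl | hN
  · have : A = ∅ := by
      rw [Finset.eq_empty_iff_forall_notMem]
      intro x hx
      have h4 := (hmem x).1 hx
      have := h4.2 0
      simp only [Function.iterate_zero, id] at this
      omega
    rw [← hA, this]
    simp only [Finset.card_empty, Nat.cast_zero]
    positivity
  · refine h3.trans (max_le ?_ le_rfl)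
    refine le_trans ?_ (sq_log_le N hN)
    have h4 : (0 : ℝ) ≤ ((Nat.log 3 N : ℝ) + 1) ^ 2 := by positivity
    simp only [Finset.card_empty, Nat.cast_zero]
    linarith

/-- The boundary inequality: a finite set `A` of positive integers up to `M` has at most
`max ((b + 1) t ^ 2) (12 M ^ 0.987)` elements, where `b` is the number of elements of `f(A)`
outside `A` and `t = ⌊log₃ M⌋ + 1`. The bounds for orbits and cycles are `orbit_bound` and
`cycles_bound`. -/
theorem result :
    ∀ (A : Finset ℕ) (M : ℕ), (∀ x ∈ A, 0 < x ∧ x ≤ M) →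
      (#A : ℝ) ≤ max (((#(A.image f \ A) : ℝ) + 1) * (Nat.log 3 M + 1) ^ 2)
        (12 * (M : ℝ) ^ (0.987 : ℝ)) :=
  fun A M hA => iso A M hA

end Pool.Agent.Results.MP_f1f252_nt.SparseOrbit
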